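import Mathlib
import Pool.Agent.Y881.CS.Stm

/-! Steps CHG and XHC of project CS: the local version of Chang's theorem from the dissociated case,
and the size and the near invariance of proper coset progressions. -/

set_option autoImplicit false

namespace Pool.Agent.Y455.CS

open Finset Pool.Agent.TH858 Pool.Agent.TH858.GP Pool.Agent.Y881.CS
open scoped Pointwise

theorem t_CHG : S_CHD → S_CHG := by
  classical
  intro h N _ X T q hq hTX hT hX
  obtain ⟨k₀, hk₀⟩ : ∃ k : ℕ, k = ⌊8 * (q + 1)⌋₊ + 1 := ⟨_, rfl⟩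
  obtain ⟨F, hF⟩ : ∃ F : Finset (Finset (ZMod N)), F = (univ.filter fun γ : ZMod N =>
      (T.card : ℝ) ^ 2 ≤ 4 * wt T γ).powerset.filter fun Λ => Λ.card ≤ k₀ ∧
      ∀ e : ZMod N → ℤ, (∀ l, |e l| ≤ 1) → (∃ l ∈ Λ, e l ≠ 0) →
        ‖∑ y ∈ X, ψ ((∑ l ∈ Λ, (e l : ZMod N) * l) * y)‖ ≤ (1 / 2) ^ k₀ * X.card := ⟨_, rfl⟩
  have hmem : ∀ Λ : Finset (ZMod N), Λ ∈ F ↔ ((∀ l ∈ Λ, (T.card : ℝ) ^ 2 ≤ 4 * wt T l) ∧
      Λ.card ≤ k₀ ∧ ∀ e : ZMod N → ℤ, (∀ l, |e l| ≤ 1) → (∃ l ∈ Λ, e l ≠ 0) →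
        ‖∑ y ∈ X, ψ ((∑ l ∈ Λ, (e l : ZMod N) * l) * y)‖ ≤ (1 / 2) ^ k₀ * X.card) := by
    intro Λ
    rw [hF, mem_filter, mem_powerset]
    refine and_congr ?_ Iff.rfl
    constructor
    · intro h l hl
      exact (mem_filter.1 (h hl)).2
    · intro h l hl
      exact mem_filter.2 ⟨mem_univ _, h l hl⟩
  have hFne : F.Nonempty := by
    refine ⟨∅, ?_⟩
    rw [hmem]
    refine ⟨fun l hl => absurd hl (notMem_empty l), by simp, ?_⟩
    rintro e _ ⟨l, hl, _⟩
    exact absurd hl (notMem_empty l)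
  obtain ⟨Λ, hΛ, hmax⟩ := exists_max_image F (fun Λ => Λ.card) hFne
  obtain ⟨hΛ1, hΛ2, hΛ3⟩ := (hmem Λ).1 hΛ
  have hcard : (Λ.card : ℝ) ≤ 8 * (q + 1) := h N X T Λ q k₀ hTX hT hX hΛ1 hΛ2 hΛ3
  have hlt : Λ.card + 1 ≤ k₀ := by
    rw [hk₀]
    have := Nat.le_floor hcard
    omega
  have hexp : Real.exp (-(8 * q + 9)) ≤ (1 / 2 : ℝ) ^ k₀ := by
    have h1 : (1 / 2 : ℝ) ^ k₀ = Real.exp (-(k₀ * Real.log 2)) := by
      have h2 : (1 / 2 : ℝ) = Real.exp (-Real.log 2) := by
        rw [Real.exp_neg, Real.exp_log (by norm_num)]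
        norm_num
      rw [h2, ← Real.exp_nat_mul]
      congr 1
      ring
    rw [h1]
    refine Real.exp_le_exp.mpr ?_
    have h3 : (k₀ : ℝ) ≤ 8 * q + 9 := by
      rw [hk₀]
      push_cast
      have := Nat.floor_le (by linarith : (0 : ℝ) ≤ 8 * (q + 1))
      linarith
    have h4 : Real.log 2 ≤ 1 := by
      have := Real.log_two_lt_d9
      linarith
    have h5 : 0 ≤ Real.log 2 := Real.log_nonneg (by norm_num)
    have h6 : (k₀ : ℝ) * Real.log 2 ≤ (k₀ : ℝ) * 1 :=
      mul_le_mul_of_nonneg_left h4 (Nat.cast_nonneg _)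
    linarith
  refine ⟨Λ, hcard, fun γ hγ => ?_⟩
  by_cases hγΛ : γ ∈ Λ
  · refine ⟨fun l => if l = γ then 1 else 0, fun l => ?_, ?_⟩
    · dsimp only
      split_ifs <;> simp
    · have h1 : ∑ l ∈ Λ, (((if l = γ then 1 else 0 : ℤ) : ℤ) : ZMod N) * l = γ := by
        rw [sum_eq_single γ]
        · simp
        · intro b _ hb
          simp [hb]
        · intro h
          exact absurd hγΛ h
      rw [h1, sub_self]
      have h2 : ∑ y ∈ X, ψ ((0 : ZMod N) * y) = (X.card : ℂ) := by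
        have h2' : ∀ y ∈ X, ψ ((0 : ZMod N) * y) = 1 := fun y _ => by
          have : (0 : ZMod N) * y = 0 := zero_mul y
          rw [this, ψ_zero]
        rw [sum_congr rfl h2']
        simp
      rw [h2, Complex.norm_natCast]
      have h3 : Real.exp (-(8 * q + 9)) ≤ 1 := Real.exp_le_one_iff.mpr (by linarith)
      have h4 : (0 : ℝ) ≤ X.card := Nat.cast_nonneg _
      nlinarith
  · have hins : ∃ e : ZMod N → ℤ, (∀ l, |e l| ≤ 1) ∧ (∃ l ∈ insert γ Λ, e l ≠ 0) ∧
        (1 / 2) ^ k₀ * (X.card : ℝ) < ‖∑ y ∈ X, ψ ((∑ l ∈ insert γ Λ, (e l : ZMod N) * l) * y)‖ := by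
      by_contra hcon
      push Not at hcon
      have h1 : insert γ Λ ∈ F := by
        rw [hmem]
        refine ⟨?_, ?_, ?_⟩
        · intro l hl
          rw [mem_insert] at hl
          rcases hl with rfl | hl
          · exact hγ
          · exact hΛ1 l hl
        · rw [card_insert_of_notMem hγΛ]
          exact hlt
        · intro e he1 he2
          exact hcon e he1 he2
      have h2 := hmax _ h1
      rw [card_insert_of_notMem hγΛ] at h2
      omega
    obtain ⟨e, he1, he2, he3⟩ := hins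
    rw [sum_insert hγΛ] at he3
    have hX0 : (0 : ℝ) ≤ X.card := Nat.cast_nonneg _
    have hlow : Real.exp (-(8 * q + 9)) * X.card ≤ (1 / 2) ^ k₀ * (X.card : ℝ) :=
      mul_le_mul_of_nonneg_right hexp hX0
    have he4 := he1 γ
    have hcases : e γ = 0 ∨ e γ = 1 ∨ e γ = -1 := by
      rw [abs_le] at he4
      omega
    rcases hcases with h0 | h0 | h0
    · exfalso
      rw [h0] at he3
      obtain ⟨l, hl, hl2⟩ := he2
      rw [mem_insert] at hl
      rcases hl with rfl | hl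
      · exact hl2 h0
      · have h1 := hΛ3 e he1 ⟨l, hl, hl2⟩
        have h2 : ((0 : ℤ) : ZMod N) * γ + ∑ l ∈ Λ, (e l : ZMod N) * l =
            ∑ l ∈ Λ, (e l : ZMod N) * l := by
          simp
        rw [h2] at he3
        linarith
    · refine ⟨fun l => -e l, fun l => by rw [abs_neg]; exact he1 l, ?_⟩
      have h2 : γ - ∑ l ∈ Λ, ((-e l : ℤ) : ZMod N) * l =
          ((e γ : ℤ) : ZMod N) * γ + ∑ l ∈ Λ, (e l : ZMod N) * l := by
        rw [h0]
        simp [sum_neg_distrib]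
      rw [h2]
      linarith
    · refine ⟨e, he1, ?_⟩
      have h2 : γ - ∑ l ∈ Λ, ((e l : ℤ) : ZMod N) * l =
          -(((e γ : ℤ) : ZMod N) * γ + ∑ l ∈ Λ, (e l : ZMod N) * l) := by
        rw [h0]
        simp
        ring
      rw [h2, norm_hat_neg]
      linarith

/-! ### coset progressions -/

lemma weier {ι : Type} (s : Finset ι) (t : ι → ℝ) (h0 : ∀ i ∈ s, 0 ≤ t i)
    (h1 : ∀ i ∈ s, t i ≤ 1) : 1 - ∑ i ∈ s, t i ≤ ∏ i ∈ s, (1 - t i) := by
  classical
  induction s using Finset.induction_on with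
  | empty => simp
  | insert a s ha ih =>
    rw [sum_insert ha, prod_insert ha]
    have e1 := ih (fun i hi => h0 i (mem_insert_of_mem hi)) (fun i hi => h1 i (mem_insert_of_mem hi))
    have e2 := h0 a (mem_insert_self _ _)
    have e3 := h1 a (mem_insert_self _ _)
    have e4 : 0 ≤ ∑ i ∈ s, t i := sum_nonneg fun i hi => h0 i (mem_insert_of_mem hi)
    have e5 : (1 - t a) * (1 - ∑ i ∈ s, t i) ≤ (1 - t a) * ∏ i ∈ s, (1 - t i) :=
      mul_le_mul_of_nonneg_left e1 (by linarith)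
    nlinarith [mul_nonneg e2 e4]

theorem t_XHC : S_XHC := by
  classical
  intro N _ H d a L hP
  obtain ⟨Hs, hHs⟩ : ∃ Hs : Finset (ZMod N), Hs = univ.filter (fun x => x ∈ H) := ⟨_, rfl⟩
  have memHs : ∀ x, x ∈ Hs ↔ x ∈ H := by
    intro x
    rw [hHs, mem_filter]
    simp
  have cardHs : Nat.card H = Hs.card := by
    rw [Nat.card_eq_fintype_card, hHs]
    exact Fintype.card_subtype _
  have memXH : ∀ x, x ∈ XH H a L ↔ ∃ m : Fin d → ℤ, (∀ i, |m i| ≤ L i) ∧ x - ev a m ∈ H := by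
    intro x
    unfold XH
    rw [mem_filter]
    simp
  have hinj : ∀ p ∈ Hs ×ˢ box L, ∀ p' ∈ Hs ×ˢ box L, p.1 + ev a p.2 = p'.1 + ev a p'.2 →
      p = p' := by
    rintro ⟨u, m⟩ hp ⟨u', m'⟩ hp' he
    rw [mem_product, memHs, mem_box] at hp hp'
    dsimp only at hp hp' he
    have h1 : ev a m - ev a m' = u' - u := by
      linear_combination he
    have h2 : m = m' := hP m m' hp.2 hp'.2 (by rw [h1]; exact H.sub_mem hp'.1 hp.1)
    subst h2
    have h3 : u = u' := by
      linear_combination he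
    rw [h3]
  have hcard : (XH H a L).card = Nat.card H * (box L).card := by
    have h1 : XH H a L = (Hs ×ˢ box L).image fun p => p.1 + ev a p.2 := by
      ext x
      rw [memXH, mem_image]
      constructor
      · rintro ⟨m, hm, hx⟩
        refine ⟨(x - ev a m, m), ?_, ?_⟩
        · rw [mem_product, memHs, mem_box]
          exact ⟨hx, hm⟩
        · dsimp only
          ring
      · rintro ⟨⟨u, m⟩, hp, rfl⟩
        rw [mem_product, memHs, mem_box] at hp
        refine ⟨m, hp.2, ?_⟩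
        have : u + ev a m - ev a m = u := by ring
        dsimp only
        rw [this]
        exact hp.1
    rw [h1, card_image_of_injOn, card_product, cardHs]
    intro p hp p' hp' he
    exact hinj p (mem_coe.1 hp) p' (mem_coe.1 hp') he
  refine ⟨hcard, ?_⟩
  intro x m hx hm
  obtain ⟨Q, hQ⟩ : ∃ Q : Finset (Fin d → ℤ), Q = Fintype.piFinset fun i =>
      Finset.Icc (-(L i : ℤ) + max 0 (-m i)) ((L i : ℤ) - max 0 (m i)) := ⟨_, rfl⟩
  have hQmem : ∀ w ∈ Q, (∀ i, |w i| ≤ L i) ∧ ∀ i, |w i + m i| ≤ L i := by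
    intro w hw
    rw [hQ, Fintype.mem_piFinset] at hw
    constructor
    · intro i
      have := Finset.mem_Icc.1 (hw i)
      rw [abs_le]
      omega
    · intro i
      have := Finset.mem_Icc.1 (hw i)
      rw [abs_le]
      omega
  have hQcard : (Q.card : ℝ) = ∏ i, ((2 * (L i : ℝ) + 1) - |(m i : ℝ)|) := by
    rw [hQ, Fintype.card_piFinset]
    push_cast
    refine prod_congr rfl fun i _ => ?_
    rw [Int.card_Icc]
    have h1 : ((L i : ℤ) - max 0 (m i) + 1 - (-(L i : ℤ) + max 0 (-m i))) =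
        2 * (L i : ℤ) + 1 - |m i| := by
      rcases le_total 0 (m i) with h | h
      · rw [abs_of_nonneg h]; omega
      · rw [abs_of_nonpos h]; omega
    rw [h1]
    have h2 : (((2 * (L i : ℤ) + 1 - |m i|).toNat : ℤ)) = 2 * (L i : ℤ) + 1 - |m i| := by
      have := hm i
      omega
    have h3 : (((2 * (L i : ℤ) + 1 - |m i|).toNat : ℝ)) = ((2 * (L i : ℤ) + 1 - |m i| : ℤ) : ℝ) := by
      rw [← h2]
      push_cast
      rfl
    rw [h3]
    push_cast
    ring
  have hcnt : Hs.card * Q.card ≤ cnt (XH H a L) x := by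
    unfold cnt
    rw [← card_product]
    refine card_le_card_of_injOn (fun p => (p.1 + ev a p.2, p.1 + ev a p.2 + x)) ?_ ?_
    · rintro ⟨u, w⟩ hp
      rw [mem_coe, mem_product, memHs] at hp
      obtain ⟨hw1, hw2⟩ := hQmem w hp.2
      rw [mem_coe, mem_filter, mem_product, memXH, memXH]
      dsimp only at hp ⊢
      refine ⟨⟨⟨w, hw1, ?_⟩, ⟨w + m, hw2, ?_⟩⟩, by ring⟩
      · have : u + ev a w - ev a w = u := by ring
        rw [this]
        exact hp.1
      · rw [ev_add]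
        have : u + ev a w + x - (ev a w + ev a m) = u + (x - ev a m) := by ring
        rw [this]
        exact H.add_mem hp.1 hx
    · intro p hp p' hp' he
      have h1 : p.1 + ev a p.2 = p'.1 + ev a p'.2 := congrArg Prod.fst he
      rw [mem_coe, mem_product] at hp hp'
      refine hinj p ?_ p' ?_ h1
      · rw [mem_product, mem_box]
        exact ⟨hp.1, (hQmem _ hp.2).1⟩
      · rw [mem_product, mem_box]
        exact ⟨hp'.1, (hQmem _ hp'.2).1⟩
  have hcnt2 : (Hs.card : ℝ) * Q.card ≤ cnt (XH H a L) x := by exact_mod_cast hcnt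
  have hXc : ((XH H a L).card : ℝ) = Hs.card * ∏ i, (2 * (L i : ℝ) + 1) := by
    rw [hcard, cardHs, card_box]
    push_cast
    rfl
  have hprod : ∏ i, ((2 * (L i : ℝ) + 1) - |(m i : ℝ)|) =
      (∏ i, (2 * (L i : ℝ) + 1)) * ∏ i, (1 - |(m i : ℝ)| / (2 * L i + 1)) := by
    rw [← prod_mul_distrib]
    refine prod_congr rfl fun i _ => ?_
    have : (2 * (L i : ℝ) + 1) ≠ 0 := by positivity
    field_simp
  have hw := weier (univ : Finset (Fin d)) (fun i => |(m i : ℝ)| / (2 * L i + 1))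
    (fun i _ => by positivity) (fun i _ => by
      rw [div_le_one (by positivity)]
      have h1 : ((|m i| : ℤ) : ℝ) ≤ ((L i : ℤ) : ℝ) := by exact_mod_cast hm i
      rw [Int.cast_abs] at h1
      push_cast at h1
      have h2 : (0 : ℝ) ≤ L i := Nat.cast_nonneg _
      linarith)
  have hP0 : 0 ≤ (Hs.card : ℝ) * ∏ i, (2 * (L i : ℝ) + 1) := by positivity
  have hfin := mul_le_mul_of_nonneg_left hw hP0
  rw [hXc]
  rw [hQcard, hprod] at hcnt2
  have e1 : (Hs.card : ℝ) * ((∏ i, (2 * (L i : ℝ) + 1)) * ∏ i, (1 - |(m i : ℝ)| / (2 * L i + 1))) =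
      (Hs.card : ℝ) * (∏ i, (2 * (L i : ℝ) + 1)) * ∏ i, (1 - |(m i : ℝ)| / (2 * L i + 1)) := by
    ring
  rw [e1] at hcnt2
  linarith

end Pool.Agent.Y455.CS
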